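import Mathlib
import Pool.Agent.R567.SP.Meas
import Pool.Agent.R567.SP.Baire

set_option autoImplicit false

/-!
# Partitions of the positive reals into Borel semirings (MP_afbdfd_lc)

The statement Q1 is true under the continuum hypothesis, and it is false whenever
`ℵ₁ < 𝔠` and the field of real numbers has a transcendence basis over the rationals which is a
union of `ℵ₁` pairwise disjoint Borel sets.
-/

namespace Pool.Agent.Results.MP_afbdfd_lc.BorelSemirings

open Cardinal Set Pool.Agent.R567.SP

/-- A partition of `(0, ∞)`, indexed by `J`, into nonempty Borel sets, each closed under addition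
and multiplication. -/
structure IsSemiringPartition {J : Type} (B : J → Set ℝ) : Prop where
  borel : ∀ j, MeasurableSet (B j)
  nonempty : ∀ j, (B j).Nonempty
  add_mem : ∀ j, ∀ x ∈ B j, ∀ y ∈ B j, x + y ∈ B j
  mul_mem : ∀ j, ∀ x ∈ B j, ∀ y ∈ B j, x * y ∈ B j
  disjoint : Pairwise (Function.onFun Disjoint B)
  union : ⋃ j, B j = Set.Ioi 0

/-- The statement of Q1: every such partition has one piece or continuum many pieces. -/
def Q1 : Prop :=
  ∀ (J : Type) (B : J → Set ℝ), IsSemiringPartition B → #J = 1 ∨ #J = 𝔠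

/-- The real numbers have a transcendence basis over the rationals that is a union of `ℵ₁`
pairwise disjoint Borel sets. -/
def BorelTranscendenceBasis : Prop :=
  ∃ (ι : Type) (P : ι → Set ℝ), #ι = ℵ₁ ∧ (∀ i, MeasurableSet (P i)) ∧
    Pairwise (Function.onFun Disjoint P) ∧
    IsTranscendenceBasis ℚ ((↑) : (⋃ i, P i : Set ℝ) → ℝ)

theorem one_or_aleph_one {J : Type} {B : J → Set ℝ} (h : IsSemiringPartition B) :
    #J = 1 ∨ ℵ₁ ≤ #J := by
  by_cases hc : #J ≤ ℵ₀
  · left
    have : Countable J := Cardinal.mk_le_aleph0_iff.1 hc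
    have h1 := subsingleton_of_countable h.borel h.add_mem h.disjoint h.nonempty h.union
    have h2 : Nonempty J := by
      have h3 : (1 : ℝ) ∈ ⋃ j, B j := by rw [h.union]; simp
      obtain ⟨j, _⟩ := mem_iUnion.1 h3
      exact ⟨j⟩
    rw [Cardinal.eq_one_iff_unique]
    exact ⟨h1, h2⟩
  · right
    rw [← Cardinal.succ_aleph0]
    exact Order.succ_le_of_lt (not_le.1 hc)

theorem le_continuum {J : Type} {B : J → Set ℝ} (h : IsSemiringPartition B) : #J ≤ 𝔠 := by
  have h1 := h.nonempty
  choose f hf using h1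
  have hinj : Function.Injective f := by
    intro a b hab
    by_contra hne
    exact Set.disjoint_left.1 (h.disjoint hne) (hf a) (hab ▸ hf b)
  rw [← Cardinal.mk_real]
  exact Cardinal.mk_le_of_injective hinj

theorem q1_of_ch (hch : (ℵ₁ : Cardinal.{0}) = 𝔠) : Q1 := by
  intro J B h
  rcases one_or_aleph_one h with h1 | h1
  · exact Or.inl h1
  · right
    exact le_antisymm (le_continuum h) (hch ▸ h1)

theorem exists_partition (H : BorelTranscendenceBasis) :
    ∃ (J : Type) (B : J → Set ℝ), IsSemiringPartition B ∧ #J = ℵ₁ := by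
  classical
  obtain ⟨ι, P, hι, hm, hd, hT⟩ := H
  obtain ⟨_, _, hord⟩ := Cardinal.exists_ord_eq_type_lt ι
  have hc : ∀ i : ι, (Set.Iic i).Countable := by
    intro i
    have h1 : #(Set.Iio i) < #ι := Cardinal.mk_Iio_lt i hord
    rw [hι, ← Cardinal.succ_aleph0, Order.lt_succ_iff] at h1
    have h2 : (Set.Iio i).Countable := Cardinal.le_aleph0_iff_set_countable.1 h1
    rw [← Set.Iio_insert]
    exact h2.insert i
  obtain ⟨E, hE⟩ := exists_test hT hd
  let J := {o : Option (ι × ℕ × Bool) // (piece P E o).Nonempty}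
  have hpart : IsSemiringPartition (fun j : J => piece P E j.1) := by
    refine ⟨fun j => measurableSet_piece hc hm hT hE j.1, fun j => j.2,
      fun j x hx y hy => piece_add hx hy, fun j x hx y hy => piece_mul hx hy, ?_, ?_⟩
    · intro j j' hne
      refine Set.disjoint_left.2 fun x hx hx' => hne ?_
      exact Subtype.ext (piece_disjoint hE hx hx')
    · ext y
      simp only [mem_iUnion, mem_Ioi]
      constructor
      · rintro ⟨j, hj⟩
        exact piece_pos hj
      · intro hy
        obtain ⟨o, ho⟩ := piece_cover hT hE hy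
        exact ⟨⟨o, ⟨y, ho⟩⟩, ho⟩
  refine ⟨J, _, hpart, le_antisymm ?_ ?_⟩
  · have h1 : #J ≤ #(Option (ι × ℕ × Bool)) := Cardinal.mk_subtype_le _
    refine h1.trans ?_
    have h0 : ℵ₀ ≤ ℵ₁ := Cardinal.aleph0_le_aleph 1
    have h2 : #(ι × ℕ × Bool) ≤ ℵ₁ := by
      rw [Cardinal.mk_prod, Cardinal.lift_id, Cardinal.lift_id, hι]
      refine Cardinal.mul_le_of_le h0 le_rfl ?_
      have : #(ℕ × Bool) ≤ ℵ₀ := Cardinal.mk_le_aleph0
      exact this.trans h0
    rw [Cardinal.mk_option]
    exact Cardinal.add_le_of_le h0 h2 (Cardinal.one_le_aleph0.trans h0)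
  · rcases one_or_aleph_one hpart with h1 | h1
    · exfalso
      rw [Cardinal.eq_one_iff_unique] at h1
      obtain ⟨hsub, _⟩ := h1
      have hone : (1 : ℝ) ∈ piece P E none := ⟨one_pos, fun D => D.map_one_eq_zero⟩
      -- a point of the basis
      have hne : (⋃ i, P i : Set ℝ).Nonempty := by
        by_contra h0
        rw [Set.not_nonempty_iff_eq_empty] at h0
        rw [h0] at hT
        have h3 := hT.isAlgebraic
        have h4 : Algebra.IsAlgebraic ℚ ℝ := by
          have h5 : IsEmpty ((∅ : Set ℝ) : Type) := inferInstance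
          exact (IsTranscendenceBasis.isEmpty_iff_isAlgebraic hT).1 h5
        apply Cardinal.not_countable_real
        refine (Algebraic.countable ℚ ℝ).mono fun x _ => ?_
        exact h4.isAlgebraic x
      obtain ⟨t, ht⟩ := hne
      obtain ⟨D, hD⟩ := exists_der_val hT (fun _ => 1)
      have ht0 : t ≠ 0 := by
        rintro rfl
        have := hD 0 ht
        rw [map_zero] at this
        exact zero_ne_one this
      have habs : D |t| ≠ 0 := by
        rcases abs_choice t with h2 | h2
        · rw [h2, hD t ht]; exact one_ne_zero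
        · rw [h2, map_neg, hD t ht]; exact neg_ne_zero.2 one_ne_zero
      obtain ⟨o, ho⟩ := piece_cover hT hE (abs_pos.2 ht0)
      have h6 : (⟨none, ⟨1, hone⟩⟩ : J) = ⟨o, ⟨|t|, ho⟩⟩ := Subsingleton.elim _ _
      have h7 : none = o := congrArg Subtype.val h6
      rw [← h7] at ho
      exact habs (ho.2 D)
    · exact h1

/-- **Main theorem.**
(1) A partition of `(0, ∞)` into nonempty Borel sets closed under addition and multiplication has
either one piece or at least `ℵ₁` pieces.
(2) If the continuum hypothesis holds, then Q1 is true.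
(3) If the reals have a transcendence basis over the rationals which is a union of `ℵ₁` pairwise
disjoint Borel sets, then there is such a partition with exactly `ℵ₁` pieces.
(4) If moreover `ℵ₁ < 𝔠`, then Q1 is false. -/
theorem result :
    (∀ (J : Type) (B : J → Set ℝ), IsSemiringPartition B → #J = 1 ∨ ℵ₁ ≤ #J) ∧
    ((ℵ₁ : Cardinal.{0}) = 𝔠 → Q1) ∧
    (BorelTranscendenceBasis → ∃ (J : Type) (B : J → Set ℝ), IsSemiringPartition B ∧ #J = ℵ₁) ∧
    (BorelTranscendenceBasis → (ℵ₁ : Cardinal.{0}) < 𝔠 → ¬ Q1) := by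
  refine ⟨fun J B h => one_or_aleph_one h, q1_of_ch, exists_partition, fun H hlt hQ => ?_⟩
  obtain ⟨J, B, h, hJ⟩ := exists_partition H
  rcases hQ J B h with h1 | h1
  · rw [hJ] at h1
    have := Cardinal.aleph0_le_aleph 1
    rw [h1] at this
    exact absurd this (not_le.2 Cardinal.one_lt_aleph0)
  · rw [hJ] at h1
    exact absurd h1 (ne_of_lt hlt)

end Pool.Agent.Results.MP_afbdfd_lc.BorelSemirings
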